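import Pool.Agent.R3.Iso6

/-!
# Multi-way isoperimetric gaps always have imprimitive realizers (MP_8474a0_co, Q1)

For every `n ≥ 2` and every finite vertex-transitive graph `Γ` with at least `n + 1` vertices and
`h_{n+1}(Γ) > 2 (n + 1) h_n(Γ)`, some realizer of `h_n(Γ)` is a system of imprimitivity of size `n`
for the automorphism group. So the graphs asked for in Q1 do not exist, for any `n ≥ 2`.

Idea. Let `A` be the smallest part of a realizer. Carving `A ∩ gA` out of `A` and comparing with
`h_{n+1}` shows that the translates `gA` fall into exactly `n` classes of nearly equal sets; they
define a system of imprimitivity with blocks `V_c` (the points lying in most of the translates of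
the class `c`). If the blocks had more outgoing edges per vertex than `h_n`, then a comparison of
the total number of cut edges of the realizer and of the block system would contradict the fact that
small subsets of a block have a large inner boundary (again by the gap).
-/

set_option autoImplicit false

namespace Pool.Agent.Results.MP_8474a0_co.ImprimitiveRealizer

open Pool.Agent.R3.Iso

theorem result : ∀ (n : ℕ), 2 ≤ n → ∀ (V : Type) [Fintype V] [DecidableEq V]
    (Γ : SimpleGraph V) [DecidableRel Γ.Adj], VertexTransitive Γ → n + 1 ≤ Fintype.card V →
    2 * ((n : ℝ) + 1) * isoConst Γ n < isoConst Γ (n + 1) →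
    ∃ P : V → Fin n, maxRatio Γ P = isoConst Γ n ∧ IsBlockSystem Γ P := by
  intro n hn V _ _ Γ _ hvt hV h
  have hne : Nonempty V := Fintype.card_pos_iff.mp (by omega)
  exact realizer hvt hn hV h

end Pool.Agent.Results.MP_8474a0_co.ImprimitiveRealizer
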